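import Pool.Agent.Y138.RB.Fin

set_option autoImplicit false

namespace Pool.Agent.Results.MP_2a41cd_an.EveryDensity

open Pool.Agent.Y138.RB Cardinal

/-- **Rotund and smooth normed spaces with tilings by balls, of every dimension `κ ≥ 𝔠`.** For every
cardinal number `κ` that is at least the continuum there is a real normed space of algebraic
dimension `κ`, of cardinality `κ`, all of whose dense subsets have at least `κ` elements (so its
density character is `κ`), whose norm is both rotund and (Gateaux) smooth and which, for every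
`δ > 0`, is the union of a family of pairwise disjoint closed balls with radii in `(0, δ]`. -/
theorem result (κ : Cardinal.{0}) (hκ : continuum ≤ κ) :
    ∃ (X : Type) (_ : NormedAddCommGroup X) (_ : NormedSpace ℝ X),
      Module.rank ℝ X = κ ∧ #X = κ ∧ (∀ S : Set X, Dense S → κ ≤ #S) ∧
      (∀ x y : X, ‖x‖ = 1 → ‖y‖ = 1 → x ≠ y → ‖(1 / 2 : ℝ) • (x + y)‖ < 1) ∧
      (∀ x : X, ‖x‖ = 1 → ∃! f : StrongDual ℝ X, ‖f‖ = 1 ∧ f x = 1) ∧
      ∀ δ : ℝ, 0 < δ → ∃ T : Set (X × ℝ), (∀ p ∈ T, 0 < p.2 ∧ p.2 ≤ δ) ∧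
        (⋃ p ∈ T, Metric.closedBall p.1 p.2) = Set.univ ∧
        ∀ p ∈ T, ∀ q ∈ T, p ≠ q →
          Disjoint (Metric.closedBall p.1 p.2) (Metric.closedBall q.1 q.2) := by
  have hι : #κ.out = κ := mk_out κ
  obtain ⟨E⟩ := exists_equiv κ.out (by rw [hι]; exact hκ)
  refine ⟨Space.RX E, inferInstance, inferInstance, ?_, ?_, fun S hS => ?_, Space.rotund,
    Space.smooth, fun δ hδ => ?_⟩
  · rw [← (Space.bas E).mk_eq_rank'', hι]
  · rw [mk_space κ.out (by rw [hι]; exact hκ) E, hι]
  · have := density E S hS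
    rwa [hι] at this
  · obtain ⟨T, h1, h2, h3⟩ := Space.main (E0 := E)
    have h4 := scale T (1 / 8) (8 * δ) (by positivity) h1 h2 h3
    have e : 8 * δ * (1 / 8) = δ := by ring
    rw [e] at h4
    exact h4

end Pool.Agent.Results.MP_2a41cd_an.EveryDensity
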